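import Pool.Agent.W398.SG.StmC

/-!
# SG-C-RK0: the rank of the constituent
-/

set_option autoImplicit false

namespace Pool.Agent.W554.SG.Rk0

open Pool.Agent.W37.SG Pool.Agent.W398.SG.C

theorem tf {p : ℕ} [Fact p.Prime] {T : Type} [AddCommGroup T] [Module ℤ_[p] T]
    (h : ∀ x : T, (p : ℤ_[p]) • x = 0 → x = 0) : Module.IsTorsionFree ℤ_[p] T := by
  have hp : ∀ (n : ℕ) (x : T), (p : ℤ_[p]) ^ n • x = 0 → x = 0 := by
    intro n
    induction n with
    | zero => intro x hx; simpa using hx
    | succ n ih =>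
      intro x hx
      rw [pow_succ, mul_smul] at hx
      exact h x (ih _ hx)
  refine Module.IsTorsionFree.of_smul_eq_zero fun a x hax => ?_
  by_cases ha : a = 0
  · exact Or.inl ha
  · right
    rw [PadicInt.unitCoeff_spec ha, mul_smul] at hax
    apply hp a.valuation
    have h2 := congrArg (fun y => ((PadicInt.unitCoeff ha)⁻¹ : (ℤ_[p])ˣ) • y) hax
    simp only [smul_zero] at h2
    rw [← Units.smul_def, inv_smul_smul] at h2
    exact h2

theorem main : S_RK0 := by
  classical
  intro p _ P T _ _ _ _ ρ hlat H T₀ N hsys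
  obtain ⟨hfin, htor, -⟩ := hlat
  obtain ⟨hidx, hinv, hN, hNp, hNH, hN0, hNj, -⟩ := hsys
  have : Module.IsTorsionFree ℤ_[p] T := tf htor
  have : Module.IsTorsionFree ℤ_[p] T₀ := tf fun x hx => by
    have h1 := congrArg (Subtype.val) hx
    exact Subtype.ext (htor _ (by simpa using h1))
  have : Module.Finite ℤ_[p] T := hfin
  have : Module.Finite ℤ_[p] T₀ := Module.Finite.of_injective T₀.subtype T₀.injective_subtype
  have hFree : Module.Free ℤ_[p] T₀ := Module.free_of_finite_type_torsion_free'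
  have hff : Finite (P ⧸ H) := Quotient.finite _
  let _ : Fintype (P ⧸ H) := Fintype.ofFinite _
  have hcard : Fintype.card (P ⧸ H) = p := by
    rw [← Nat.card_eq_fintype_card]
    exact hidx
  have hrank : Module.finrank ℤ_[p] (P ⧸ H → T₀) = p * Module.finrank ℤ_[p] T₀ := by
    rw [Module.finrank_pi_fintype, Finset.sum_const, Finset.card_univ, hcard, smul_eq_mul]
  -- the map A
  let A : (P ⧸ H → T₀) →ₗ[ℤ_[p]] T :=
    ∑ c : P ⧸ H, (ρ c.out) ∘ₗ T₀.subtype ∘ₗ LinearMap.proj c
  have hA : ∀ t, A t = ∑ c : P ⧸ H, ρ c.out (t c : T) := by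
    intro t
    simp [A, LinearMap.sum_apply]
  have hmul : ∀ (g g' : P) (x : T), ρ g (ρ g' x) = ρ (g * g') x := fun g g' x => by
    rw [map_mul]
    rfl
  have hAinj : Function.Injective A := by
    rw [injective_iff_map_eq_zero]
    intro t ht
    funext c0
    have h1 : N (ρ (c0.out⁻¹) (A t)) = (p : ℤ_[p]) • (t c0 : T) := by
      rw [hA, map_sum, map_sum, Finset.sum_eq_single c0]
      · rw [hmul, inv_mul_cancel, map_one, Module.End.one_apply]
        exact hNp _ (t c0).2
      · intro c _ hc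
        rw [hmul]
        refine hN0 _ (fun hmem => hc ?_) _ (t c).2
        rw [← QuotientGroup.out_eq' c, ← QuotientGroup.out_eq' c0]
        exact (QuotientGroup.eq.2 hmem).symm
      · intro h; exact absurd (Finset.mem_univ _) h
    rw [ht, map_zero, map_zero] at h1
    exact Subtype.ext (htor _ h1.symm)
  -- the map B
  let B : T →ₗ[ℤ_[p]] (P ⧸ H → T₀) :=
    LinearMap.pi fun c => (N ∘ₗ ρ (c.out⁻¹)).codRestrict T₀ fun x => hN _
  have hB : ∀ t c, ((B t c : T₀) : T) = N (ρ (c.out⁻¹) t) := fun t c => rfl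
  have hBinj : Function.Injective B := by
    rw [injective_iff_map_eq_zero]
    intro t ht
    apply hNj
    intro g
    set c : P ⧸ H := ((g⁻¹ : P) : P ⧸ H) with hc
    have h1 : c.out⁻¹ * g⁻¹ ∈ H := by
      rw [← QuotientGroup.eq, QuotientGroup.out_eq']
    have h2 : g * c.out ∈ H := by
      have := H.inv_mem h1
      simpa using this
    have h3 : g = (g * c.out) * c.out⁻¹ := by group
    have h4 : N (ρ (c.out⁻¹) t) = 0 := by
      rw [← hB, ht]
      rfl
    rw [h3, ← hmul, hNH _ h2, h4, map_zero]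
  apply le_antisymm
  · rw [← hrank]
    exact LinearMap.finrank_le_finrank_of_injective hBinj
  · rw [← hrank]
    exact LinearMap.finrank_le_finrank_of_injective hAinj

end Pool.Agent.W554.SG.Rk0
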